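import Pool.Agent.H5.DPG.Stmts

set_option autoImplicit false

namespace Pool.DPG

open Filter Pool.PG

namespace DMA66

theorem wonP_shift {i : Bool} {q : ℕ → ℕ} (k : ℕ) (h : WonP i (fun n => q (n + k))) :
    WonP i q := by
  obtain ⟨p, h1, h2, h3⟩ := h
  refine ⟨p, ?_, ?_, h3⟩
  · rw [frequently_atTop] at h1 ⊢
    intro a
    obtain ⟨b, hb, hb'⟩ := h1 a
    exact ⟨b + k, by omega, hb'⟩
  · rw [eventually_atTop] at h2 ⊢
    obtain ⟨a, ha⟩ := h2
    refine ⟨a + k, fun b hb => ?_⟩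
    have h4 := ha (b - k) (by omega)
    have e : b - k + k = b := by omega
    simpa [e] using h4

/-- The rank decreases. -/
theorem reach {V : Type} {own : V → Bool} {E : V → V → Prop} {i : Bool} {S U A : Finset V}
    {α : V → V} {ρ : V → ℕ}
    (a2 : ∀ v ∈ A, v ∉ U → own v = i → α v ∈ A ∧ E v (α v) ∧ ρ (α v) < ρ v)
    (a3 : ∀ v ∈ A, v ∉ U → own v ≠ i → ∀ w ∈ S, E v w → w ∈ A ∧ ρ w < ρ v)
    (x : ℕ → V) (hx : ∀ n, x n ∈ S ∧ E (x n) (x (n + 1)))
    (hf : ∀ n, x n ∈ A → x n ∉ U → own (x n) = i → x (n + 1) = α (x n)) :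
    ∀ (r n : ℕ), x n ∈ A → ρ (x n) ≤ r → ∃ m, n ≤ m ∧ x m ∈ U := by
  have step : ∀ n, x n ∈ A → x n ∉ U → x (n + 1) ∈ A ∧ ρ (x (n + 1)) < ρ (x n) := by
    intro n hn hU
    by_cases ho : own (x n) = i
    · have h1 := a2 _ hn hU ho
      rw [hf n hn hU ho]
      exact ⟨h1.1, h1.2.2⟩
    · exact a3 _ hn hU ho _ (hx (n + 1)).1 (hx n).2
  intro r
  induction r with
  | zero =>
    intro n hn hr
    by_cases hU : x n ∈ U
    · exact ⟨n, le_rfl, hU⟩
    · have h1 := (step n hn hU).2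
      omega
  | succ r ih =>
    intro n hn hr
    by_cases hU : x n ∈ U
    · exact ⟨n, le_rfl, hU⟩
    · obtain ⟨h1, h2⟩ := step n hn hU
      obtain ⟨m, hm, hm'⟩ := ih (n + 1) h1 (by omega)
      exact ⟨m, by omega, hm'⟩

end DMA66

open Classical in
theorem dma_thm : DMAStmt := by
  intro V own pri E S Y B j W σ htot hYS hYc hsol hA
  obtain ⟨hUB, hBS, ⟨α, ρ, a2, a3⟩, a4, a5⟩ := hA
  have hDmem : ∀ v, v ∈ (Y.filter fun v => W v = j) ↔ v ∈ Y ∧ W v = j := by
    intro v; simp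
  generalize (Y.filter fun v => W v = j) = D at *
  -- some successor
  obtain ⟨s, hs⟩ : ∃ s : V → V, ∀ v ∈ S, s v ∈ S ∧ E v (s v) := by
    refine ⟨fun v => if hv : v ∈ S then (htot v hv).choose else v, fun v hv => ?_⟩
    simp only [hv, dif_pos]
    exact (htot v hv).choose_spec
  have hD2 : ∀ v ∈ D, own v ≠ j → ∀ w ∈ S, E v w → w ∈ D := by
    intro v hv ho w hw hE
    have h1 := (hDmem v).1 hv
    have h2 := hYc v h1.1 ho w hw hE
    have h3 := hsol.trap v h1.1 (by rw [h1.2]; exact ho) w h2 hE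
    exact (hDmem w).2 ⟨h2, by rw [h3, h1.2]⟩
  have hD1 : ∀ v ∈ D, σ v ∈ D ∧ E v (σ v) := by
    intro v hv
    have h1 := (hDmem v).1 hv
    have h2 := hsol.mem v h1.1
    by_cases ho : own v = j
    · have h3 := hsol.stay v h1.1 (by rw [ho, h1.2])
      exact ⟨(hDmem _).2 ⟨h2.1, by rw [h3, h1.2]⟩, h2.2⟩
    · exact ⟨hD2 v hv ho _ (hYS h2.1) h2.2, h2.2⟩
  refine ⟨hBS, ?_, fun v => if v ∈ D then σ v else if own v = j then α v else s v,
    ?_, ?_, ?_, ?_⟩
  · intro v hv ho w hw hE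
    by_cases hvD : v ∈ D
    · exact hUB (hD2 v hvD ho w hw hE)
    · exact (a3 v hv hvD ho w hw hE).1
  · intro v hv
    by_cases hvD : v ∈ D
    · simp only [hvD, if_true]
      exact ⟨hUB (hD1 v hvD).1, (hD1 v hvD).2⟩
    · simp only [hvD, if_false]
      by_cases ho : own v = j
      · rw [if_pos ho]
        have h1 := a2 v hv hvD ho
        exact ⟨h1.1, h1.2.1⟩
      · rw [if_neg ho]
        have h1 := hs v (hBS hv)
        exact ⟨(a3 v hv hvD ho _ h1.1 h1.2).1, h1.2⟩
  · intro v hv _; rfl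
  · intro v hv _ w hw _; rfl
  · intro v hv x hx0 hx hfol
    have hxS : ∀ n, x n ∈ S ∧ E (x n) (x (n + 1)) := fun n => ⟨hBS (hx n).1, (hx n).2⟩
    obtain ⟨m, hm, hmD⟩ := DMA66.reach a2 a3 x hxS (by
      intro k hk hkD hko
      have h1 := hfol k hko
      simp only [hkD, if_false] at h1
      rw [if_pos hko] at h1
      exact h1) (ρ (x 0)) 0 (hx 0).1 le_rfl
    have hstay : ∀ n, x (n + m) ∈ D := by
      intro n
      induction n with
      | zero => simpa using hmD
      | succ n ihn =>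
        have e : n + 1 + m = n + m + 1 := by omega
        rw [e]
        by_cases ho : own (x (n + m)) = j
        · have h1 := hfol (n + m) ho
          rw [if_pos ihn] at h1
          rw [h1]
          exact (hD1 _ ihn).1
        · exact hD2 _ ihn ho _ (hxS _).1 (hx _).2
    apply DMA66.wonP_shift m
    have h0 := (hDmem _).1 hmD
    have h1 := hsol.won (x m) h0.1 (fun n => x (n + m)) (by simp) (by
      intro n
      refine ⟨((hDmem _).1 (hstay n)).1, ?_⟩
      have h2 := (hx (n + m)).2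
      have e : n + m + 1 = n + 1 + m := by omega
      rw [e] at h2
      exact h2) (by
      intro n hn
      rw [h0.2] at hn
      have h2 := hfol (n + m) hn
      rw [if_pos (hstay n)] at h2
      have e : n + m + 1 = n + 1 + m := by omega
      rw [e] at h2
      exact h2)
    rw [h0.2] at h1
    exact h1

end Pool.DPG
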