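import Pool.Agent.H5.DPG.Stmts

set_option autoImplicit false

namespace Pool.DPG

open Filter TMLib Pool.PG

namespace PFN66

variable {α : Type} [Enc α]

theorem own' (h : PG.PV1Stmt) {f : α → Game} {v : α → ℕ} (hf : PTime f) (hv : PTime v) :
    PTime (fun x => own (f x) (v x)) :=
  PTime.comp2 (g := fun (g : Game) (v : ℕ) => own g v) h.2.1 hf hv

theorem suc' (h : PG.PV1Stmt) {f : α → Game} {v : α → ℕ} (hf : PTime f) (hv : PTime v) :
    PTime (fun x => suc (f x) (v x)) :=
  PTime.comp2 (g := fun (g : Game) (v : ℕ) => suc g v) h.2.2.2.1 hf hv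

theorem beq' {β : Type} [Enc β] [EncInj β] [DecidableEq β] {f g : α → β} (hf : PTime f)
    (hg : PTime g) : PTime (fun x => f x == g x) :=
  (PTime.eq hf hg).congr fun x => by
    by_cases h : f x = g x <;> simp [h]

/-- a truth value from a list -/
theorem gt {l : α → List Bool} {v : α → ℕ} (hl : PTime l) (hv : PTime v) :
    PTime (fun x => (l x).getD (v x) false) :=
  PTime.listGetD hl hv (PTime.const false)

theorem mem' {l : α → List ℕ} {v : α → ℕ} (hl : PTime l) (hv : PTime v) :
    PTime (fun x => decide (v x ∈ l x)) :=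
  (PTime.any (l := l) (g := fun x w => w == v x) hl
    (beq' (PTime.snd PTime.id) (hv.comp (PTime.fst PTime.id)))).congr fun x => by
      by_cases h : v x ∈ l x
      · rw [decide_eq_true h]
        symm
        rw [List.any_eq_true]
        exact ⟨v x, h, beq_self_eq_true _⟩
      · rw [decide_eq_false h]
        refine (Bool.eq_false_iff.2 fun h' => ?_).symm
        obtain ⟨w, hw, he⟩ := List.any_eq_true.1 h'
        have : w = v x := by simpa using he
        exact h (this ▸ hw)

theorem msk' {g : α → Game} {f : α → ℕ → Bool} (hg : PTime g)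
    (hf : PTime fun p : α × ℕ => f p.1 p.2) : PTime (fun x => msk (g x).length (f x)) :=
  (PTime.map (l := fun x => List.range (g x).length) (g := f)
    (PTime.range (PTime.length hg)) hf).congr fun _ => rfl

theorem pTj (h : PG.PV1Stmt) : PTime (fun p : ((Game × List Bool) × Bool) × ℕ =>
    Tj p.1.1.1 p.1.1.2 p.1.2 p.2) := by
  refine (msk' (g := fun p : ((Game × List Bool) × Bool) × ℕ => p.1.1.1)
    (PTime.fst (PTime.fst (PTime.fst PTime.id))) (f := fun p v => p.1.1.2.getD v false &&
    decide (((List.range p.1.1.1.length).filter fun u =>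
      p.1.1.2.getD u false && (own p.1.1.1 u == p.1.2) && decide (v ∈ suc p.1.1.1 u)).length < p.2) &&
    ((own p.1.1.1 v == p.1.2) || decide (((List.range p.1.1.1.length).filter fun w =>
      p.1.1.2.getD w false && decide (w ∈ suc p.1.1.1 v)).length < p.2))) ?_).congr fun _ => rfl
  have g1 : PTime fun q : (((Game × List Bool) × Bool) × ℕ) × ℕ => q.1.1.1.1 :=
    PTime.fst (PTime.fst (PTime.fst (PTime.fst PTime.id)))
  have X1 : PTime fun q : (((Game × List Bool) × Bool) × ℕ) × ℕ => q.1.1.1.2 :=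
    PTime.snd (PTime.fst (PTime.fst (PTime.fst PTime.id)))
  have j1 : PTime fun q : (((Game × List Bool) × Bool) × ℕ) × ℕ => q.1.1.2 :=
    PTime.snd (PTime.fst (PTime.fst PTime.id))
  have s1 : PTime fun q : (((Game × List Bool) × Bool) × ℕ) × ℕ => q.1.2 :=
    PTime.snd (PTime.fst PTime.id)
  have v1 : PTime fun q : (((Game × List Bool) × Bool) × ℕ) × ℕ => q.2 := PTime.snd PTime.id
  have up : ∀ {β : Type} [Enc β] {f : (((Game × List Bool) × Bool) × ℕ) × ℕ → β}, PTime f →
      PTime fun r : ((((Game × List Bool) × Bool) × ℕ) × ℕ) × ℕ => f r.1 := fun hf =>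
    hf.comp (PTime.fst PTime.id)
  have w2 : PTime fun r : ((((Game × List Bool) × Bool) × ℕ) × ℕ) × ℕ => r.2 := PTime.snd PTime.id
  refine PTime.and (PTime.and (gt X1 v1) (PTime.lt (PTime.length (PTime.filter
    (l := fun q : (((Game × List Bool) × Bool) × ℕ) × ℕ => List.range q.1.1.1.1.length)
    (g := fun q u => q.1.1.1.2.getD u false && (own q.1.1.1.1 u == q.1.1.2) &&
      decide (q.2 ∈ suc q.1.1.1.1 u)) (PTime.range (PTime.length g1)) ?_)) s1))
    (PTime.or (beq' (own' h g1 v1) j1) (PTime.lt (PTime.length (PTime.filter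
    (l := fun q : (((Game × List Bool) × Bool) × ℕ) × ℕ => List.range q.1.1.1.1.length)
    (g := fun q w => q.1.1.1.2.getD w false &&
      decide (w ∈ suc q.1.1.1.1 q.2)) (PTime.range (PTime.length g1)) ?_)) s1))
  · exact PTime.and (PTime.and (gt (up X1) w2) (beq' (own' h (up g1) w2) (up j1)))
      (mem' (suc' h (up g1) w2) (up v1))
  · exact PTime.and (gt (up X1) w2) (mem' (suc' h (up g1) (up v1)) w2)

theorem dif' (h : PMAStmt) {g : α → Game} {X Y : α → List Bool} (hg : PTime g) (hX : PTime X)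
    (hY : PTime Y) : PTime (fun x => dif (g x) (X x) (Y x)) :=
  h.1.comp (f := fun x => (g x, X x, Y x)) (PTime.pair hg (PTime.pair hX hY))

theorem att' (h : PMAStmt) {i : α → Bool} {g : α → Game} {X Y : α → List Bool} (hi : PTime i)
    (hg : PTime g) (hX : PTime X) (hY : PTime Y) :
    PTime (fun x => att (i x) (g x) (X x) (Y x)) := by
  have h1 : ∀ b : Bool, PTime (fun x => att b (g x) (X x) (Y x)) := fun b =>
    (h.2.1 b).comp (f := fun x => (g x, X x, Y x)) (PTime.pair hg (PTime.pair hX hY))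
  exact (PTime.ite (c := fun x => i x = true) (PTime.decide_true' hi) (h1 true)
    (h1 false)).congr fun x => by cases hx : i x <;> simp

theorem Tj' (h : PG.PV1Stmt) {g : α → Game} {X : α → List Bool} {j : α → Bool} {s : α → ℕ}
    (hg : PTime g) (hX : PTime X) (hj : PTime j) (hs : PTime s) :
    PTime (fun x => Tj (g x) (X x) (j x) (s x)) :=
  (pTj h).comp (f := fun x => (((g x, X x), j x), s x))
    (PTime.pair (PTime.pair (PTime.pair hg hX) hj) hs)

theorem Yj' (h : PMAStmt) (h' : PG.PV1Stmt) {g : α → Game} {X : α → List Bool} {j : α → Bool}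
    {s : α → ℕ} (hg : PTime g) (hX : PTime X) (hj : PTime j) (hs : PTime s) :
    PTime (fun x => Yj (g x) (X x) (j x) (s x)) :=
  (dif' h hg hX (att' h (PTime.not hj) hg hX (dif' h hg hX (Tj' h' hg hX hj hs)))).congr
    fun _ => rfl

theorem bru' (h : PBRStmt) (c : ℕ) {g : α → Game} {X : α → List Bool} (hg : PTime g)
    (hX : PTime X) : PTime (fun x => bru c (g x) (X x)) :=
  (h c).comp (f := fun x => (g x, X x)) (PTime.pair hg hX)

theorem cnd' (h1 : PMAStmt) (h2 : PBRStmt) (h3 : PG.PV1Stmt) (c : ℕ) {g : α → Game}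
    {X : α → List Bool} {j : α → Bool} {s : α → ℕ} (hg : PTime g) (hX : PTime X) (hj : PTime j)
    (hs : PTime s) : PTime (fun x => cnd c (g x) (X x) (j x) (s x)) := by
  have hY := Yj' h1 h3 hg hX hj hs
  have hB := bru' h2 c hg hY
  refine (PTime.ite (c := fun x => bru c (g x) (Yj (g x) (X x) (j x) (s x)) = [])
    (PTime.eq hB (PTime.const [])) (PTime.const []) (msk' (g := g)
      (f := fun x v => (Yj (g x) (X x) (j x) (s x)).getD v false &&
        ((bru c (g x) (Yj (g x) (X x) (j x) (s x))).getD v false == j x)) hg ?_)).congr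
    fun _ => rfl
  have up : ∀ {β : Type} [Enc β] {f : α → β}, PTime f → PTime fun r : α × ℕ => f r.1 := fun hf =>
    hf.comp (PTime.fst PTime.id)
  have w2 : PTime fun r : α × ℕ => r.2 := PTime.snd PTime.id
  exact PTime.and (gt (up hY) w2) (beq' (gt (up hB) w2) (up hj))

theorem pfnd (h1 : PMAStmt) (h2 : PBRStmt) (h3 : PG.PV1Stmt) (c : ℕ) :
    PTime (fun p : Game × List Bool => fnd c p.1 p.2) := by
  have g1 : PTime fun q : (Game × List Bool) × ℕ => q.1.1 := PTime.fst (PTime.fst PTime.id)
  have X1 : PTime fun q : (Game × List Bool) × ℕ => q.1.2 := PTime.snd (PTime.fst PTime.id)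
  have s1 : PTime fun q : (Game × List Bool) × ℕ => q.2 := PTime.snd PTime.id
  have h4 : PTime fun q : (Game × List Bool) × ℕ =>
      [(true, cnd c q.1.1 q.1.2 true q.2), (false, cnd c q.1.1 q.1.2 false q.2)] :=
    PTime.cons (PTime.pair (PTime.const true) (cnd' h1 h2 h3 c g1 X1 (PTime.const true) s1))
      (PTime.cons (PTime.pair (PTime.const false)
        (cnd' h1 h2 h3 c g1 X1 (PTime.const false) s1)) (PTime.const []))
  exact (PTime.filter (g := fun (_ : Game × List Bool) (q : Bool × List Bool) =>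
      q.2.any fun b => b) (PTime.flatMap
    (l := fun p : Game × List Bool => List.range (p.1.length + 1))
    (g := fun p s => [(true, cnd c p.1 p.2 true s), (false, cnd c p.1 p.2 false s)])
    (PTime.range (PTime.succ (PTime.length (PTime.fst PTime.id)))) h4)
    (PTime.any (l := fun r : (Game × List Bool) × (Bool × List Bool) => r.2.2)
      (g := fun _ b => b) (PTime.snd (PTime.snd PTime.id)) (PTime.snd PTime.id))).congr
    fun _ => rfl

theorem pfs1 (h1 : PMAStmt) (h2 : PBRStmt) (h3 : PG.PV1Stmt) (c : ℕ) :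
    PTime (fun p : Game × List Bool => fs1 c p.1 p.2) :=
  (PTime.getD (PTime.head? (pfnd h1 h2 h3 c)) (PTime.const ((true, []) : Bool × List Bool))).congr
    fun p => by
      unfold fs1
      cases fnd c p.1 p.2 <;> rfl

end PFN66

theorem pfn_thm (h1 : PMAStmt) (h2 : PBRStmt) (h3 : PG.PV1Stmt) : PFNStmt := by
  intro c
  refine ⟨PFN66.pfnd h1 h2 h3 c, ?_, PFN66.pfs1 h1 h2 h3 c⟩
  have g1 : PTime fun p : Game × List Bool => p.1 := PTime.fst PTime.id
  have X1 : PTime fun p : Game × List Bool => p.2 := PTime.snd PTime.id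
  have hf := PFN66.pfs1 h1 h2 h3 c
  exact (PTime.ite (c := fun p : Game × List Bool => fnd c p.1 p.2 = [])
    (PTime.eq (PFN66.pfnd h1 h2 h3 c) (PTime.const []))
    (PFN66.dif' h1 g1 X1 h1.2.2.2.2.2.1)
    (PFN66.dif' h1 g1 X1 (PFN66.att' h1 (PTime.fst hf) g1 X1 (PTime.snd hf)))).congr fun _ => rfl

end Pool.DPG
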